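import Mathlib

/-!
Shattering four points of the ground set from a covered configuration.
-/

open Finset

namespace Helper900VC

variable {P Q : Type*}

/-- `S` is shattered by the neighbourhoods `{p | E p q}`. -/
def Shat (E : P → Q → Prop) (S : Finset P) : Prop :=
  ∀ T ⊆ S, ∃ q, ∀ p ∈ S, (E p q ↔ p ∈ T)

open Classical in
/-- If all sixteen patterns occur then the four-set is shattered. -/
lemma shat_of_patterns (E : P → Q → Prop) (a b c d : P)
    (h : ∀ A B C D : Prop, ∃ q, (E a q ↔ A) ∧ (E b q ↔ B) ∧ (E c q ↔ C) ∧ (E d q ↔ D)) :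
    Shat E {a, b, c, d} := by
  intro T _
  obtain ⟨q, h1, h2, h3, h4⟩ := h (a ∈ T) (b ∈ T) (c ∈ T) (d ∈ T)
  refine ⟨q, ?_⟩
  intro p hp
  simp only [mem_insert, mem_singleton] at hp
  rcases hp with rfl | rfl | rfl | rfl
  · exact h1
  · exact h2
  · exact h3
  · exact h4

variable [Fintype Q]

open Classical in
/-- Two points with many common blocks have a common block avoiding a small set of other points. -/
lemma pick (E : P → Q → Prop) (t : ℕ)
    (T3 : ∀ a b c : P, a ≠ b → a ≠ c → b ≠ c →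
      (univ.filter fun q => E a q ∧ E b q ∧ E c q).card < t)
    (a b : P) (hab : a ≠ b) (F : Finset P) (hF : ∀ c ∈ F, a ≠ c ∧ b ≠ c)
    (h : F.card * t < (univ.filter fun q => E a q ∧ E b q).card) :
    ∃ q, E a q ∧ E b q ∧ ∀ c ∈ F, ¬ E c q := by
  by_contra hcon
  push Not at hcon
  have hsub : (univ.filter fun q => E a q ∧ E b q) ⊆
      F.biUnion (fun c => univ.filter fun q => E a q ∧ E b q ∧ E c q) := by
    intro q hq
    simp only [mem_filter, mem_univ, true_and] at hq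
    obtain ⟨c, hc, hcq⟩ := hcon q hq.1 hq.2
    simp only [mem_biUnion, mem_filter, mem_univ, true_and]
    exact ⟨c, hc, hq.1, hq.2, hcq⟩
  have h1 := card_le_card hsub
  have h2 : (F.biUnion (fun c => univ.filter fun q => E a q ∧ E b q ∧ E c q)).card ≤ F.card * t := by
    apply card_biUnion_le_card_mul
    intro c hc
    exact (T3 a b c hab (hF c hc).1 (hF c hc).2).le
  omega

open Classical in
/-- The main shattering lemma. -/
lemma shatter (E : P → Q → Prop) (t : ℕ)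
    (T3 : ∀ a b c : P, a ≠ b → a ≠ c → b ≠ c →
      (univ.filter fun q => E a q ∧ E b q ∧ E c q).card < t)
    (B : Finset Q) (D Y : Finset P) (q0 : Q) (M : ℝ) (hM : 0 ≤ M)
    (hq0D : ∀ x ∈ D, E x q0) (hq0Y : ∀ y ∈ Y, E y q0)
    (hDY : ∀ x ∈ D, ∀ y ∈ Y, x ≠ y)
    (hrich : ∀ x ∈ D, ∀ y ∈ Y, 4 * t < (univ.filter fun q => E x q ∧ E y q).card)
    (hcov : ∀ x ∈ D, ∀ y ∈ Y, ∀ y' ∈ Y, y ≠ y' → ∃ q ∈ B, E x q ∧ E y q ∧ E y' q)
    (hsmall : ∀ q ∈ B, ((D.filter fun x => E x q).card : ℝ) ≤ M)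
    (hD : 2 * t * M < (D.card : ℝ)) (hD3 : 3 ≤ D.card)
    (x x' : P) (hx : x ∈ D) (hx' : x' ∈ D) (hxx' : x ≠ x')
    (hnb : ∀ q ∈ B, E x q → E x' q → ∀ y ∈ Y, ∀ y' ∈ Y, E y q → E y' q → y = y')
    (y1 y2 y3 : P) (hy1 : y1 ∈ Y) (hy2 : y2 ∈ Y) (hy3 : y3 ∈ Y)
    (h12 : y1 ≠ y2) (h13 : y1 ≠ y3) (h23 : y2 ≠ y3)
    (c1 : ∃ q ∈ B, E y1 q ∧ E x q ∧ E x' q)
    (c2 : ∃ q ∈ B, E y2 q ∧ E x q ∧ E x' q)
    (c3 : ∃ q ∈ B, E y3 q ∧ E x q ∧ E x' q) :
    Shat E {x, x', y1, y2} := by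
  have hrich' : ∀ x ∈ D, ∀ y ∈ Y, 4 * t < (univ.filter fun q => E y q ∧ E x q).card := by
    intro x hx y hy
    have := hrich x hx y hy
    simpa only [and_comm] using this
  have ht0 : 0 ≤ t := Nat.zero_le t
  have hxy1 := hDY x hx y1 hy1
  have hxy2 := hDY x hx y2 hy2
  have hxy3 := hDY x hx y3 hy3
  have hx'y1 := hDY x' hx' y1 hy1
  have hx'y2 := hDY x' hx' y2 hy2
  have hx'y3 := hDY x' hx' y3 hy3
  -- a third point of D
  obtain ⟨z, hz, hzx, hzx'⟩ : ∃ z ∈ D, z ≠ x ∧ z ≠ x' := by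
    by_contra hcon
    push Not at hcon
    have hsub : D ⊆ {x, x'} := by
      intro w hw
      simp only [mem_insert, mem_singleton]
      by_cases hwx : w = x
      · exact Or.inl hwx
      · exact Or.inr (hcon w hw hwx)
    have := card_le_card hsub
    have h2 : ({x, x'} : Finset P).card ≤ 2 := card_le_two
    omega
  have hzy1 := hDY z hz y1 hy1
  have hzy2 := hDY z hz y2 hy2
  have hzy3 := hDY z hz y3 hy3
  -- blocks for the patterns
  have pXY : ∀ a ∈ D, ∀ b ∈ Y, ∀ F : Finset P, (∀ c ∈ F, a ≠ c ∧ b ≠ c) → F.card ≤ 4 →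
      ∃ q, E a q ∧ E b q ∧ ∀ c ∈ F, ¬ E c q := by
    intro a ha b hb F hF hF4
    apply pick E t T3 a b (hDY a ha b hb) F hF
    have := hrich a ha b hb
    have h4 : F.card * t ≤ 4 * t := Nat.mul_le_mul_right t hF4
    omega
  -- {y1,y2}
  obtain ⟨qyy, hqy1, hqy2, hqx, hqx'⟩ : ∃ q, E y1 q ∧ E y2 q ∧ ¬ E x q ∧ ¬ E x' q := by
    by_contra hcon
    push Not at hcon
    have hsub : D ⊆ ((B.filter fun q => E x q ∧ E y1 q ∧ E y2 q) ∪
        (B.filter fun q => E x' q ∧ E y1 q ∧ E y2 q)).biUnion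
        (fun q => D.filter fun w => E w q) := by
      intro w hw
      obtain ⟨q, hqB, hwq, h1q, h2q⟩ := hcov w hw y1 hy1 y2 hy2 h12
      simp only [mem_biUnion, mem_union, mem_filter]
      refine ⟨q, ?_, hw, hwq⟩
      by_cases hxq : E x q
      · exact Or.inl ⟨hqB, hxq, h1q, h2q⟩
      · exact Or.inr ⟨hqB, hcon q h1q h2q hxq, h1q, h2q⟩
    have h1 : (D.card : ℝ) ≤ ∑ q ∈ ((B.filter fun q => E x q ∧ E y1 q ∧ E y2 q) ∪
        (B.filter fun q => E x' q ∧ E y1 q ∧ E y2 q)), ((D.filter fun w => E w q).card : ℝ) := by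
      have := (card_le_card hsub).trans card_biUnion_le
      exact_mod_cast this
    have h2 : ∑ q ∈ ((B.filter fun q => E x q ∧ E y1 q ∧ E y2 q) ∪
        (B.filter fun q => E x' q ∧ E y1 q ∧ E y2 q)), ((D.filter fun w => E w q).card : ℝ)
        ≤ (((B.filter fun q => E x q ∧ E y1 q ∧ E y2 q) ∪
        (B.filter fun q => E x' q ∧ E y1 q ∧ E y2 q)).card : ℝ) * M := by
      rw [← nsmul_eq_mul]
      apply sum_le_card_nsmul
      intro q hq
      apply hsmall
      simp only [mem_union, mem_filter] at hq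
      rcases hq with hq | hq
      · exact hq.1
      · exact hq.1
    have h3 : ((B.filter fun q => E x q ∧ E y1 q ∧ E y2 q) ∪
        (B.filter fun q => E x' q ∧ E y1 q ∧ E y2 q)).card ≤ 2 * t := by
      refine (card_union_le _ _).trans ?_
      have a1 : (B.filter fun q => E x q ∧ E y1 q ∧ E y2 q).card ≤ t := by
        refine le_trans (card_le_card ?_) (T3 x y1 y2 hxy1 hxy2 h12).le
        exact filter_subset_filter _ (subset_univ _)
      have a2 : (B.filter fun q => E x' q ∧ E y1 q ∧ E y2 q).card ≤ t := by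
        refine le_trans (card_le_card ?_) (T3 x' y1 y2 hx'y1 hx'y2 h12).le
        exact filter_subset_filter _ (subset_univ _)
      omega
    have h4 : (((B.filter fun q => E x q ∧ E y1 q ∧ E y2 q) ∪
        (B.filter fun q => E x' q ∧ E y1 q ∧ E y2 q)).card : ℝ) * M ≤ (2 * t : ℝ) * M := by
      apply mul_le_mul_of_nonneg_right _ hM
      exact_mod_cast h3
    linarith
  apply shat_of_patterns
  intro A1 A2 A3 A4
  by_cases hA1 : A1 <;> by_cases hA2 : A2 <;> by_cases hA3 : A3 <;> by_cases hA4 : A4 <;>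
    simp only [hA1, hA2, hA3, hA4, iff_true, iff_false]
  · -- TTTT
    exact ⟨q0, hq0D x hx, hq0D x' hx', hq0Y y1 hy1, hq0Y y2 hy2⟩
  · -- x x' y1
    obtain ⟨q, hqB, h1, h2, h3⟩ := c1
    exact ⟨q, h2, h3, h1, fun h => h12 (hnb q hqB h2 h3 y1 hy1 y2 hy2 h1 h)⟩
  · -- x x' y2
    obtain ⟨q, hqB, h1, h2, h3⟩ := c2
    exact ⟨q, h2, h3, fun h => h12 (hnb q hqB h2 h3 y1 hy1 y2 hy2 h h1), h1⟩
  · -- x x'
    obtain ⟨q, hqB, h1, h2, h3⟩ := c3
    exact ⟨q, h2, h3, fun h => h13 (hnb q hqB h2 h3 y1 hy1 y3 hy3 h h1),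
      fun h => h23 (hnb q hqB h2 h3 y2 hy2 y3 hy3 h h1)⟩
  · -- x y1 y2
    obtain ⟨q, hqB, h1, h2, h3⟩ := hcov x hx y1 hy1 y2 hy2 h12
    exact ⟨q, h1, fun h => h12 (hnb q hqB h1 h y1 hy1 y2 hy2 h2 h3), h2, h3⟩
  · -- x y1
    obtain ⟨q, h1, h2, h3⟩ := pXY x hx y1 hy1 {x', y2} (by
      intro c hc
      simp only [mem_insert, mem_singleton] at hc
      rcases hc with rfl | rfl
      · exact ⟨hxx', hx'y1.symm⟩
      · exact ⟨hxy2, h12⟩) (by
      have := card_le_two (a := x') (b := y2); omega)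
    exact ⟨q, h1, h3 x' (by simp), h2, h3 y2 (by simp)⟩
  · -- x y2
    obtain ⟨q, h1, h2, h3⟩ := pXY x hx y2 hy2 {x', y1} (by
      intro c hc
      simp only [mem_insert, mem_singleton] at hc
      rcases hc with rfl | rfl
      · exact ⟨hxx', hx'y2.symm⟩
      · exact ⟨hxy1, h12.symm⟩) (by
      have := card_le_two (a := x') (b := y1); omega)
    exact ⟨q, h1, h3 x' (by simp), h3 y1 (by simp), h2⟩
  · -- x
    obtain ⟨q, h1, h2, h3⟩ := pXY x hx y3 hy3 {x', y1, y2} (by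
      intro c hc
      simp only [mem_insert, mem_singleton] at hc
      rcases hc with rfl | rfl | rfl
      · exact ⟨hxx', hx'y3.symm⟩
      · exact ⟨hxy1, h13.symm⟩
      · exact ⟨hxy2, h23.symm⟩) (by
      have := card_le_three (a := x') (b := y1) (c := y2); omega)
    exact ⟨q, h1, h3 x' (by simp), h3 y1 (by simp), h3 y2 (by simp)⟩
  · -- x' y1 y2
    obtain ⟨q, hqB, h1, h2, h3⟩ := hcov x' hx' y1 hy1 y2 hy2 h12
    exact ⟨q, fun h => h12 (hnb q hqB h h1 y1 hy1 y2 hy2 h2 h3), h1, h2, h3⟩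
  · -- x' y1
    obtain ⟨q, h1, h2, h3⟩ := pXY x' hx' y1 hy1 {x, y2} (by
      intro c hc
      simp only [mem_insert, mem_singleton] at hc
      rcases hc with rfl | rfl
      · exact ⟨hxx'.symm, hxy1.symm⟩
      · exact ⟨hx'y2, h12⟩) (by
      have := card_le_two (a := x) (b := y2); omega)
    exact ⟨q, h3 x (by simp), h1, h2, h3 y2 (by simp)⟩
  · -- x' y2
    obtain ⟨q, h1, h2, h3⟩ := pXY x' hx' y2 hy2 {x, y1} (by
      intro c hc
      simp only [mem_insert, mem_singleton] at hc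
      rcases hc with rfl | rfl
      · exact ⟨hxx'.symm, hxy2.symm⟩
      · exact ⟨hx'y1, h12.symm⟩) (by
      have := card_le_two (a := x) (b := y1); omega)
    exact ⟨q, h3 x (by simp), h1, h3 y1 (by simp), h2⟩
  · -- x'
    obtain ⟨q, h1, h2, h3⟩ := pXY x' hx' y3 hy3 {x, y1, y2} (by
      intro c hc
      simp only [mem_insert, mem_singleton] at hc
      rcases hc with rfl | rfl | rfl
      · exact ⟨hxx'.symm, hxy3.symm⟩
      · exact ⟨hx'y1, h13.symm⟩
      · exact ⟨hx'y2, h23.symm⟩) (by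
      have := card_le_three (a := x) (b := y1) (c := y2); omega)
    exact ⟨q, h3 x (by simp), h1, h3 y1 (by simp), h3 y2 (by simp)⟩
  · -- y1 y2
    exact ⟨qyy, hqx, hqx', hqy1, hqy2⟩
  · -- y1
    obtain ⟨q, h1, h2, h3⟩ := pXY z hz y1 hy1 {x, x', y2} (by
      intro c hc
      simp only [mem_insert, mem_singleton] at hc
      rcases hc with rfl | rfl | rfl
      · exact ⟨hzx, hxy1.symm⟩
      · exact ⟨hzx', hx'y1.symm⟩
      · exact ⟨hzy2, h12⟩) (by
      have := card_le_three (a := x) (b := x') (c := y2); omega)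
    exact ⟨q, h3 x (by simp), h3 x' (by simp), h2, h3 y2 (by simp)⟩
  · -- y2
    obtain ⟨q, h1, h2, h3⟩ := pXY z hz y2 hy2 {x, x', y1} (by
      intro c hc
      simp only [mem_insert, mem_singleton] at hc
      rcases hc with rfl | rfl | rfl
      · exact ⟨hzx, hxy2.symm⟩
      · exact ⟨hzx', hx'y2.symm⟩
      · exact ⟨hzy1, h12.symm⟩) (by
      have := card_le_three (a := x) (b := x') (c := y1); omega)
    exact ⟨q, h3 x (by simp), h3 x' (by simp), h3 y1 (by simp), h2⟩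
  · -- empty
    obtain ⟨q, h1, h2, h3⟩ := pXY z hz y3 hy3 {x, x', y1, y2} (by
      intro c hc
      simp only [mem_insert, mem_singleton] at hc
      rcases hc with rfl | rfl | rfl | rfl
      · exact ⟨hzx, hxy3.symm⟩
      · exact ⟨hzx', hx'y3.symm⟩
      · exact ⟨hzy1, h13.symm⟩
      · exact ⟨hzy2, h23.symm⟩) (card_le_four)
    exact ⟨q, h3 x (by simp), h3 x' (by simp), h3 y1 (by simp), h3 y2 (by simp)⟩

end Helper900VC
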