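import Mathlib
import Pool.Agent.Helper900_VC.Shatter

/-!
Upper bound for the total number of covered pairs when no four-set is shattered.
-/

open Finset

namespace Helper900VC

variable {P Q : Type*} [Fintype Q]

open Classical in
/-- Ordered pairs of distinct points of `D` which lie together with `y` in a block of `B`. -/
noncomputable def Lk (E : P → Q → Prop) (B : Finset Q) (y : P) (D : Finset P) : Finset (P × P) :=
  (D ×ˢ D).filter fun z => z.1 ≠ z.2 ∧ ∃ q ∈ B, E y q ∧ E z.1 q ∧ E z.2 q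

open Classical in
/-- Ordered pairs of distinct points of `D` lying in a block of `B` with two points of `Y`. -/
noncomputable def Bad (E : P → Q → Prop) (B : Finset Q) (Y D : Finset P) : Finset (P × P) :=
  (D ×ˢ D).filter fun z => z.1 ≠ z.2 ∧ ∃ q ∈ B, E z.1 q ∧ E z.2 q ∧
    ∃ y ∈ Y, ∃ y' ∈ Y, y ≠ y' ∧ E y q ∧ E y' q

open Classical in
lemma bad_card (E : P → Q → Prop) (t : ℕ)
    (T3 : ∀ a b c : P, a ≠ b → a ≠ c → b ≠ c →
      (univ.filter fun q => E a q ∧ E b q ∧ E c q).card < t)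
    (B : Finset Q) (D Y : Finset P) (M : ℝ) (hM : 0 ≤ M)
    (hDY : ∀ x ∈ D, ∀ y ∈ Y, x ≠ y)
    (hsmall : ∀ q ∈ B, ((D.filter fun x => E x q).card : ℝ) ≤ M) :
    ((Bad E B Y D).card : ℝ) ≤ D.card * ((Y.card : ℝ) ^ 2 * (t * M)) := by
  have hsub : Bad E B Y D ⊆ D.biUnion fun x => ((Y ×ˢ Y).filter fun p => p.1 ≠ p.2).biUnion
      fun p => (B.filter fun q => E x q ∧ E p.1 q ∧ E p.2 q).biUnion
        fun q => (D.filter fun w => E w q).image (Prod.mk x) := by
    intro z hz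
    simp only [Bad, mem_filter, mem_product] at hz
    obtain ⟨⟨h1, h2⟩, hne, q, hqB, e1, e2, y, hy, y', hy', hyy, ey, ey'⟩ := hz
    simp only [mem_biUnion, mem_filter, mem_product, mem_image]
    refine ⟨z.1, h1, (y, y'), ⟨⟨hy, hy'⟩, hyy⟩, q, ⟨hqB, e1, ey, ey'⟩, z.2, ⟨h2, e2⟩, rfl⟩
  have h0 : (Bad E B Y D).card ≤ ∑ x ∈ D, ∑ p ∈ ((Y ×ˢ Y).filter fun p => p.1 ≠ p.2),
      ∑ q ∈ (B.filter fun q => E x q ∧ E p.1 q ∧ E p.2 q), (D.filter fun w => E w q).card := by
    refine (card_le_card hsub).trans (card_biUnion_le.trans (sum_le_sum fun x hx => ?_))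
    refine card_biUnion_le.trans (sum_le_sum fun p hp => ?_)
    refine card_biUnion_le.trans (sum_le_sum fun q hq => ?_)
    exact card_image_le
  have h1 : ((Bad E B Y D).card : ℝ) ≤ ∑ x ∈ D, ∑ p ∈ ((Y ×ˢ Y).filter fun p => p.1 ≠ p.2),
      ∑ q ∈ (B.filter fun q => E x q ∧ E p.1 q ∧ E p.2 q),
        ((D.filter fun w => E w q).card : ℝ) := by exact_mod_cast h0
  refine h1.trans ?_
  rw [← nsmul_eq_mul]
  apply sum_le_card_nsmul
  intro x hx
  have h2 : ∑ p ∈ ((Y ×ˢ Y).filter fun p => p.1 ≠ p.2),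
      ∑ q ∈ (B.filter fun q => E x q ∧ E p.1 q ∧ E p.2 q),
        ((D.filter fun w => E w q).card : ℝ) ≤
      ((Y ×ˢ Y).filter fun p => p.1 ≠ p.2).card • ((t : ℝ) * M) := by
    apply sum_le_card_nsmul
    intro p hp
    simp only [mem_filter, mem_product] at hp
    have h3 : ∑ q ∈ (B.filter fun q => E x q ∧ E p.1 q ∧ E p.2 q),
        ((D.filter fun w => E w q).card : ℝ) ≤
        (B.filter fun q => E x q ∧ E p.1 q ∧ E p.2 q).card • M := by
      apply sum_le_card_nsmul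
      intro q hq
      exact hsmall q (mem_filter.1 hq).1
    refine h3.trans ?_
    rw [nsmul_eq_mul]
    apply mul_le_mul_of_nonneg_right _ hM
    have h4 : (B.filter fun q => E x q ∧ E p.1 q ∧ E p.2 q).card ≤ t := by
      refine le_trans (card_le_card ?_)
        (T3 x p.1 p.2 (hDY x hx p.1 hp.1.1) (hDY x hx p.2 hp.1.2) hp.2).le
      exact filter_subset_filter _ (subset_univ _)
    exact_mod_cast h4
  refine h2.trans ?_
  rw [nsmul_eq_mul]
  apply mul_le_mul_of_nonneg_right _ (by positivity)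
  have h5 : ((Y ×ˢ Y).filter fun p => p.1 ≠ p.2).card ≤ Y.card ^ 2 := by
    refine (card_filter_le _ _).trans ?_
    rw [card_product, sq]
  exact_mod_cast h5

open Classical in
lemma count_le (E : P → Q → Prop) (t : ℕ)
    (T3 : ∀ a b c : P, a ≠ b → a ≠ c → b ≠ c →
      (univ.filter fun q => E a q ∧ E b q ∧ E c q).card < t)
    (hns : ∀ S : Finset P, S.card = 4 → ¬ Shat E S)
    (B : Finset Q) (D Y : Finset P) (q0 : Q) (M : ℝ) (hM : 0 ≤ M)
    (hq0D : ∀ x ∈ D, E x q0) (hq0Y : ∀ y ∈ Y, E y q0)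
    (hDY : ∀ x ∈ D, ∀ y ∈ Y, x ≠ y)
    (hrich : ∀ x ∈ D, ∀ y ∈ Y, 4 * t < (univ.filter fun q => E x q ∧ E y q).card)
    (hcov : ∀ x ∈ D, ∀ y ∈ Y, ∀ y' ∈ Y, y ≠ y' → ∃ q ∈ B, E x q ∧ E y q ∧ E y' q)
    (hsmall : ∀ q ∈ B, ((D.filter fun x => E x q).card : ℝ) ≤ M)
    (hD : 2 * t * M < (D.card : ℝ)) (hD3 : 3 ≤ D.card) :
    ∑ y ∈ Y, ((Lk E B y D).card : ℝ) ≤
      2 * (D.card : ℝ) ^ 2 + Y.card * (D.card * ((Y.card : ℝ) ^ 2 * (t * M))) := by
  have key : ∀ z ∈ D ×ˢ D, (Y.filter fun y => z ∈ Lk E B y D).card ≤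
      2 + (if z ∈ Bad E B Y D then Y.card else 0) := by
    intro z hz
    rw [mem_product] at hz
    split_ifs with hb
    · have := card_filter_le Y (fun y => z ∈ Lk E B y D)
      omega
    · by_contra hcon
      have h3 : 2 < (Y.filter fun y => z ∈ Lk E B y D).card := by omega
      rw [two_lt_card] at h3
      obtain ⟨y1, hy1, y2, hy2, y3, hy3, h12, h13, h23⟩ := h3
      simp only [mem_filter, Lk, mem_product] at hy1 hy2 hy3
      obtain ⟨hy1, -, hne, c1⟩ := hy1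
      obtain ⟨hy2, -, -, c2⟩ := hy2
      obtain ⟨hy3, -, -, c3⟩ := hy3
      have hnb : ∀ q ∈ B, E z.1 q → E z.2 q → ∀ y ∈ Y, ∀ y' ∈ Y, E y q → E y' q → y = y' := by
        intro q hq e1 e2 y hy y' hy' ey ey'
        by_contra hyy
        apply hb
        simp only [Bad, mem_filter, mem_product]
        exact ⟨hz, hne, q, hq, e1, e2, y, hy, y', hy', hyy, ey, ey'⟩
      have hsh := shatter E t T3 B D Y q0 M hM hq0D hq0Y hDY hrich hcov hsmall hD hD3
        z.1 z.2 hz.1 hz.2 hne hnb y1 y2 y3 hy1 hy2 hy3 h12 h13 h23 c1 c2 c3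
      refine hns _ ?_ hsh
      have a1 := hDY z.1 hz.1 y1 hy1
      have a2 := hDY z.1 hz.1 y2 hy2
      have a3 := hDY z.2 hz.2 y1 hy1
      have a4 := hDY z.2 hz.2 y2 hy2
      rw [card_insert_of_notMem, card_insert_of_notMem, card_insert_of_notMem, card_singleton]
      · simpa using h12
      · simp only [mem_insert, mem_singleton, not_or]
        exact ⟨a3, a4⟩
      · simp only [mem_insert, mem_singleton, not_or]
        exact ⟨hne, a1, a2⟩
  have hswap : ∑ y ∈ Y, (Lk E B y D).card =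
      ∑ z ∈ D ×ˢ D, (Y.filter fun y => z ∈ Lk E B y D).card := by
    have e1 : ∀ y ∈ Y, (Lk E B y D).card = ∑ z ∈ D ×ˢ D, if z ∈ Lk E B y D then 1 else 0 := by
      intro y hy
      rw [← sum_filter, sum_const, smul_eq_mul, mul_one]
      congr 1
      ext z
      simp only [Lk, mem_filter]
      tauto
    rw [sum_congr rfl e1, sum_comm]
    apply sum_congr rfl
    intro z hz
    rw [card_filter]
  have h1 : ∑ y ∈ Y, (Lk E B y D).card ≤ ∑ z ∈ D ×ˢ D,
      (2 + (if z ∈ Bad E B Y D then Y.card else 0)) := by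
    rw [hswap]; exact sum_le_sum key
  have h2 : ∑ z ∈ D ×ˢ D, (2 + (if z ∈ Bad E B Y D then Y.card else 0)) ≤
      2 * D.card ^ 2 + Y.card * (Bad E B Y D).card := by
    rw [sum_add_distrib, sum_const, card_product, smul_eq_mul, ← sum_filter, sum_const,
      smul_eq_mul]
    have : ((D ×ˢ D).filter fun z => z ∈ Bad E B Y D).card ≤ (Bad E B Y D).card := by
      apply card_le_card
      intro z hz
      exact (mem_filter.1 hz).2
    nlinarith
  have h3 : ∑ y ∈ Y, ((Lk E B y D).card : ℝ) ≤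
      2 * (D.card : ℝ) ^ 2 + Y.card * (Bad E B Y D).card := by
    exact_mod_cast h1.trans h2
  refine h3.trans ?_
  have h4 := bad_card E t T3 B D Y M hM hDY hsmall
  have h5 : (Y.card : ℝ) * (Bad E B Y D).card ≤
      Y.card * (D.card * ((Y.card : ℝ) ^ 2 * (t * M))) :=
    mul_le_mul_of_nonneg_left h4 (Nat.cast_nonneg _)
  linarith

end Helper900VC
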