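import Mathlib
import Pool.Agent.Helper900_VC.Count

/-!
Greedy selection of a set `Y` of `j` points which is a clique in the link of every
point of a large set `D`.
-/

open Finset

namespace Helper900VC

variable {P Q : Type*}

open Classical in
/-- Points of `U` covered together with `x` and `u`. -/
noncomputable def Nb (E : P → Q → Prop) (B : Finset Q) (x u : P) (U : Finset P) : Finset P :=
  U.filter fun v => u ≠ v ∧ ∃ q ∈ B, E x q ∧ E u q ∧ E v q

open Classical in
lemma lk_card_eq (E : P → Q → Prop) (B : Finset Q) (x : P) (U : Finset P) :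
    (Lk E B x U).card = ∑ u ∈ U, (Nb E B x u U).card := by
  have h1 : Lk E B x U = U.biUnion fun u => (Nb E B x u U).image (Prod.mk u) := by
    ext z
    simp only [Lk, Nb, mem_filter, mem_product, mem_biUnion, mem_image]
    constructor
    · rintro ⟨⟨h1, h2⟩, h3, h4⟩
      exact ⟨z.1, h1, z.2, ⟨h2, h3, h4⟩, rfl⟩
    · rintro ⟨u, hu, v, ⟨hv, h3, h4⟩, rfl⟩
      exact ⟨⟨hu, hv⟩, h3, h4⟩
  rw [h1, card_biUnion]
  · apply sum_congr rfl
    intro u hu
    apply card_image_of_injective
    intro a b hab
    exact (Prod.mk.inj hab).2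
  · intro u hu v hv huv
    rw [Function.onFun, disjoint_left]
    intro z hz hz'
    simp only [mem_image] at hz hz'
    obtain ⟨a, -, rfl⟩ := hz
    obtain ⟨b, -, hb⟩ := hz'
    exact huv (Prod.mk.inj hb).1.symm

open Classical in
lemma high_card (E : P → Q → Prop) (B : Finset Q) (x : P) (U : Finset P) (e : ℝ) (he : 0 ≤ e)
    (hU : 0 < (U.card : ℝ))
    (h : 2 * e * (U.card : ℝ) ^ 2 ≤ ((Lk E B x U).card : ℝ)) :
    e * U.card ≤ ((U.filter fun u => e * U.card ≤ ((Nb E B x u U).card : ℝ)).card : ℝ) := by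
  rw [lk_card_eq, Nat.cast_sum] at h
  have h1 : ∑ u ∈ U, ((Nb E B x u U).card : ℝ) ≤
      ∑ u ∈ U, ((if e * U.card ≤ ((Nb E B x u U).card : ℝ) then (U.card : ℝ) else 0) +
        e * U.card) := by
    apply sum_le_sum
    intro u hu
    split_ifs with hc
    · have : (Nb E B x u U).card ≤ U.card := card_filter_le _ _
      have h2 : ((Nb E B x u U).card : ℝ) ≤ U.card := by exact_mod_cast this
      have : 0 ≤ e * U.card := by positivity
      linarith
    · push Not at hc
      linarith
  rw [sum_add_distrib, ← sum_filter, sum_const, sum_const, nsmul_eq_mul, nsmul_eq_mul] at h1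
  have h3 : e * (U.card : ℝ) * U.card ≤
      ((U.filter fun u => e * U.card ≤ ((Nb E B x u U).card : ℝ)).card : ℝ) * U.card := by
    nlinarith
  exact le_of_mul_le_mul_right h3 hU

open Classical in
lemma greedy (E : P → Q → Prop) (B : Finset Q) (X : Finset P) (R : P → P → Prop)
    (e u0 : ℝ) (he : 0 < e) (he1 : e ≤ 1) (hu0 : 0 < u0) (hX : 0 < (X.card : ℝ))
    (hpsd : ∀ x ∈ X, ∀ U ⊆ X, (∀ u ∈ U, R x u) → u0 ≤ (U.card : ℝ) →
      2 * e * (U.card : ℝ) ^ 2 ≤ ((Lk E B x U).card : ℝ)) (j : ℕ) :
    ∀ (r : ℝ) (D : Finset P) (U : P → Finset P), 0 < r → D ⊆ X →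
      (∀ x ∈ D, U x ⊆ X ∧ (∀ u ∈ U x, R x u) ∧ r ≤ ((U x).card : ℝ)) →
      u0 ≤ e ^ j * r → D.Nonempty →
      ∃ Y D' : Finset P, D' ⊆ D ∧ D'.Nonempty ∧ Y.card = j ∧
        (∀ x ∈ D', ∀ y ∈ Y, y ∈ U x) ∧
        (∀ x ∈ D', ∀ y ∈ Y, ∀ y' ∈ Y, y ≠ y' → ∃ q ∈ B, E x q ∧ E y q ∧ E y' q) ∧
        e ^ (j * j) * (r / X.card) ^ j * D.card ≤ (D'.card : ℝ) := by
  induction j with
  | zero =>
    intro r D U hr hDX hU hu hD
    refine ⟨∅, D, Subset.refl _, hD, card_empty, ?_, ?_, ?_⟩
    · intro x _ y hy; exact absurd hy (notMem_empty y)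
    · intro x _ y hy; exact absurd hy (notMem_empty y)
    · simp
  | succ j ih =>
    intro r D U hr hDX hU hu hD
    have hXne : X.Nonempty := by
      rw [← card_pos]; exact_mod_cast hX
    set m : ℝ := (X.card : ℝ) with hm
    have hDpos : 0 < (D.card : ℝ) := by exact_mod_cast hD.card_pos
    have hej : e ^ (j + 1) ≤ 1 := pow_le_one₀ he.le he1
    have hru : u0 ≤ r := by
      have : e ^ (j + 1) * r ≤ 1 * r := mul_le_mul_of_nonneg_right hej hr.le
      linarith
    -- high degree vertices
    set H : P → Finset P := fun x => (U x).filter fun u =>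
      e * (U x).card ≤ ((Nb E B x u (U x)).card : ℝ) with hH
    have hHc : ∀ x ∈ D, e * r ≤ ((H x).card : ℝ) := by
      intro x hx
      obtain ⟨h1, h2, h3⟩ := hU x hx
      have h4 : 0 < ((U x).card : ℝ) := by linarith
      have h5 := high_card E B x (U x) e he.le h4 (hpsd x (hDX hx) (U x) h1 h2 (by linarith))
      have h6 : e * r ≤ e * (U x).card := mul_le_mul_of_nonneg_left h3 he.le
      exact h6.trans h5
    -- double counting
    have hdc : ∑ y ∈ X, ((D.filter fun x => y ∈ H x).card : ℝ) = ∑ x ∈ D, ((H x).card : ℝ) := by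
      have e1 : ∀ y ∈ X, ((D.filter fun x => y ∈ H x).card : ℝ) =
          ∑ x ∈ D, if y ∈ H x then (1 : ℝ) else 0 := by
        intro y hy
        rw [card_filter]; push_cast; rfl
      rw [sum_congr rfl e1, sum_comm]
      apply sum_congr rfl
      intro x hx
      rw [← sum_filter, sum_const, nsmul_eq_mul, mul_one]
      congr 2
      ext y
      simp only [mem_filter]
      constructor
      · exact fun h => h.2
      · intro h
        refine ⟨(hU x hx).1 ?_, h⟩
        exact (mem_filter.1 h).1
    obtain ⟨y, hyX, hy⟩ : ∃ y ∈ X, e * r / m * D.card ≤ ((D.filter fun x => y ∈ H x).card : ℝ) := by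
      by_contra hcon
      push Not at hcon
      have h1 : ∑ y ∈ X, ((D.filter fun x => y ∈ H x).card : ℝ) < ∑ y ∈ X, (e * r / m * D.card) :=
        sum_lt_sum_of_nonempty hXne hcon
      rw [hdc, sum_const, nsmul_eq_mul] at h1
      have h2 : (D.card : ℝ) * (e * r) ≤ ∑ x ∈ D, ((H x).card : ℝ) := by
        rw [← nsmul_eq_mul]
        exact card_nsmul_le_sum _ _ _ hHc
      have h3 : (X.card : ℝ) * (e * r / m * D.card) = D.card * (e * r) := by
        rw [← hm]
        field_simp
      linarith
    set D1 := D.filter fun x => y ∈ H x with hD1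
    have hD1D : D1 ⊆ D := filter_subset _ _
    have her : 0 < e * r := mul_pos he hr
    have hD1ne : D1.Nonempty := by
      rw [← card_pos]
      have : (0 : ℝ) < D1.card := by
        refine lt_of_lt_of_le ?_ hy
        positivity
      exact_mod_cast this
    set U1 : P → Finset P := fun x => Nb E B x y (U x) with hU1
    have hU1sub : ∀ x, U1 x ⊆ U x := fun x => filter_subset _ _
    obtain ⟨Y, D', hD'D1, hD'ne, hYc, hYU, hYcov, hbound⟩ := ih (e * r) D1 U1 her
      (hD1D.trans hDX) (by
        intro x hx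
        have hxD := hD1D hx
        obtain ⟨h1, h2, h3⟩ := hU x hxD
        have hyH : y ∈ H x := (mem_filter.1 hx).2
        have h4 : e * (U x).card ≤ ((Nb E B x y (U x)).card : ℝ) := (mem_filter.1 hyH).2
        refine ⟨(hU1sub x).trans h1, fun u hu => h2 u (hU1sub x hu), ?_⟩
        have h6 : e * r ≤ e * (U x).card := mul_le_mul_of_nonneg_left h3 he.le
        exact h6.trans h4)
      (by rw [← mul_assoc, ← pow_succ]; exact hu) hD1ne
    obtain ⟨x0, hx0⟩ := hD'ne
    have hyY : y ∉ Y := by
      intro hyY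
      have h1 := hYU x0 hx0 y hyY
      simp only [hU1, Nb, mem_filter] at h1
      exact h1.2.1 rfl
    refine ⟨insert y Y, D', hD'D1.trans hD1D, ⟨x0, hx0⟩, ?_, ?_, ?_, ?_⟩
    · rw [card_insert_of_notMem hyY, hYc]
    · intro x hx z hz
      rw [mem_insert] at hz
      rcases hz with rfl | hz
      · have hyH : z ∈ H x := (mem_filter.1 (hD'D1 hx)).2
        exact (mem_filter.1 hyH).1
      · exact hU1sub x (hYU x hx z hz)
    · intro x hx a ha b hb hab
      rw [mem_insert] at ha hb
      rcases ha with rfl | ha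
      · rcases hb with rfl | hb
        · exact absurd rfl hab
        · have h1 := hYU x hx b hb
          simp only [hU1, Nb, mem_filter] at h1
          exact h1.2.2
      · rcases hb with rfl | hb
        · have h1 := hYU x hx a ha
          simp only [hU1, Nb, mem_filter] at h1
          obtain ⟨q, hq, h2, h3, h4⟩ := h1.2.2
          exact ⟨q, hq, h2, h4, h3⟩
        · exact hYcov x hx a ha b hb hab
    · refine le_trans ?_ hbound
      have h1 : e ^ (j * j) * (e * r / m) ^ j * (e * r / m * D.card) ≤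
          e ^ (j * j) * (e * r / m) ^ j * D1.card := by
        apply mul_le_mul_of_nonneg_left hy
        positivity
      refine le_trans ?_ h1
      have h2 : e ^ (j * j) * (e * r / m) ^ j * (e * r / m * D.card) =
          e ^ (j * j + j + 1) * (r / m) ^ (j + 1) * D.card := by
        rw [show e * r / m = e * (r / m) by ring, mul_pow]
        ring
      rw [h2]
      have h3 : e ^ ((j + 1) * (j + 1)) ≤ e ^ (j * j + j + 1) := by
        apply pow_le_pow_of_le_one he.le he1
        nlinarith
      apply mul_le_mul_of_nonneg_right _ hDpos.le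
      apply mul_le_mul_of_nonneg_right h3
      positivity

end Helper900VC
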