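import Mathlib
import Pool.Agent.Helper900_VC.Count

/-!
Many pairs are covered together with a point `y` inside any set of points that
share many blocks with `y`.
-/

open Finset

namespace Helper900VC

variable {P Q : Type*} [Fintype Q]

open Classical in
lemma psd (E : P → Q → Prop) (t : ℕ)
    (T3 : ∀ a b c : P, a ≠ b → a ≠ c → b ≠ c →
      (univ.filter fun q => E a q ∧ E b q ∧ E c q).card < t)
    (B : Finset Q) (y : P) (U : Finset P) (hyU : ∀ u ∈ U, y ≠ u) (dy S : ℝ) (hdy0 : 0 < dy)
    (hdy : ((B.filter fun q => E y q).card : ℝ) ≤ dy)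
    (hS : S ≤ ∑ u ∈ U, ((B.filter fun q => E y q ∧ E u q).card : ℝ))
    (h2 : 2 * dy ≤ S) :
    S ^ 2 / (2 * dy) ≤ t * ((Lk E B y U).card : ℝ) := by
  set By := B.filter fun q => E y q with hBy
  set s : Q → ℕ := fun q => (U.filter fun u => E u q).card with hs
  have hsum : ∑ u ∈ U, (B.filter fun q => E y q ∧ E u q).card = ∑ q ∈ By, s q := by
    have e1 : ∀ u ∈ U, (B.filter fun q => E y q ∧ E u q).card =
        ∑ q ∈ By, if E u q then 1 else 0 := by
      intro u hu
      rw [← card_filter, hBy, filter_filter]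
    rw [sum_congr rfl e1, sum_comm]
    apply sum_congr rfl
    intro q hq
    simp only [hs, card_filter]
  have hsumR : ∑ u ∈ U, ((B.filter fun q => E y q ∧ E u q).card : ℝ) = ∑ q ∈ By, (s q : ℝ) := by
    exact_mod_cast hsum
  rw [hsumR] at hS
  set S0 := ∑ q ∈ By, (s q : ℝ) with hS0
  have hCS : S0 ^ 2 ≤ dy * ∑ q ∈ By, (s q : ℝ) ^ 2 := by
    have h := sq_sum_le_card_mul_sum_sq (s := By) (f := fun q => (s q : ℝ))
    refine h.trans ?_
    apply mul_le_mul_of_nonneg_right hdy
    exact sum_nonneg fun q _ => sq_nonneg _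
  -- ordered pairs of distinct points
  have hpairs : ∑ q ∈ By, (s q * s q - s q) ≤ t * (Lk E B y U).card := by
    have e1 : ∀ q ∈ By, s q * s q - s q =
        ∑ z ∈ (U ×ˢ U).filter (fun z => z.1 ≠ z.2), if E z.1 q ∧ E z.2 q then 1 else 0 := by
      intro q hq
      rw [← offDiag_card, ← card_filter]
      congr 1
      ext z
      simp only [mem_offDiag, mem_filter, mem_product]
      tauto
    rw [sum_congr rfl e1, sum_comm]
    have e2 : ∀ z ∈ (U ×ˢ U).filter (fun z => z.1 ≠ z.2),
        ∑ q ∈ By, (if E z.1 q ∧ E z.2 q then 1 else 0) ≤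
          if z ∈ Lk E B y U then t else 0 := by
      intro z hz
      simp only [mem_filter, mem_product] at hz
      rw [← card_filter]
      split_ifs with hL
      · refine le_trans (card_le_card ?_)
          (T3 y z.1 z.2 (hyU _ hz.1.1) (hyU _ hz.1.2) hz.2).le
        intro q hq
        simp only [hBy, mem_filter] at hq
        simp only [mem_filter, mem_univ, true_and]
        exact ⟨hq.1.2, hq.2.1, hq.2.2⟩
      · rw [Nat.le_zero, card_eq_zero, filter_eq_empty_iff]
        intro q hq hE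
        apply hL
        simp only [hBy, mem_filter] at hq
        simp only [Lk, mem_filter, mem_product]
        exact ⟨hz.1, hz.2, q, hq.1, hq.2, hE.1, hE.2⟩
    refine (sum_le_sum e2).trans ?_
    rw [← sum_filter, sum_const, smul_eq_mul, mul_comm]
    apply Nat.mul_le_mul_left
    apply card_le_card
    intro z hz
    exact (mem_filter.1 hz).2
  have hpairsR : ∑ q ∈ By, (s q : ℝ) ^ 2 - S0 ≤ t * ((Lk E B y U).card : ℝ) := by
    have h1 : (∑ q ∈ By, ((s q * s q - s q : ℕ) : ℝ)) ≤ t * ((Lk E B y U).card : ℝ) := by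
      exact_mod_cast hpairs
    have h3 : ∑ q ∈ By, (s q : ℝ) ^ 2 - S0 = ∑ q ∈ By, ((s q * s q - s q : ℕ) : ℝ) := by
      rw [hS0, ← sum_sub_distrib]
      apply sum_congr rfl
      intro q hq
      have : s q ≤ s q * s q := Nat.le_mul_self _
      rw [Nat.cast_sub this, Nat.cast_mul, sq]
    rw [h3]; exact h1
  have hS0pos : 0 < S0 := by linarith
  have h4 : S0 ^ 2 / dy ≤ ∑ q ∈ By, (s q : ℝ) ^ 2 := by
    rw [div_le_iff₀ hdy0]; linarith
  have h5 : S0 ≤ S0 ^ 2 / (2 * dy) := by
    rw [le_div_iff₀ (by positivity)]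
    nlinarith
  have h6 : S ^ 2 / (2 * dy) ≤ S0 ^ 2 / (2 * dy) := by
    apply div_le_div_of_nonneg_right _ (by positivity)
    have : 0 ≤ S := by linarith
    nlinarith
  have h7 : S0 ^ 2 / dy = S0 ^ 2 / (2 * dy) + S0 ^ 2 / (2 * dy) := by
    field_simp
    ring
  linarith

end Helper900VC
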