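import Mathlib
import Pool.Agent.Helper900_VC.Psd
import Pool.Agent.Helper900_VC.Greedy

/-!
The finite core: a dense `K_{3,t}`-free bipartite graph has a shattered four-set.
-/

open Finset

namespace Helper900VC

variable {P Q : Type*} [Fintype Q]

open Classical in
/-- Number of blocks through a point. -/
noncomputable def dg (E : P → Q → Prop) (x : P) : ℕ := (univ.filter fun q => E x q).card

open Classical in
/-- Number of common blocks of two points. -/
noncomputable def cd (E : P → Q → Prop) (x y : P) : ℕ := (univ.filter fun q => E x q ∧ E y q).card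

open Classical in
/-- Few large blocks pass through two given points. -/
lemma codeg_large (E : P → Q → Prop) (t : ℕ)
    (T3 : ∀ a b c : P, a ≠ b → a ≠ c → b ≠ c →
      (univ.filter fun q => E a q ∧ E b q ∧ E c q).card < t)
    (X : Finset P) (M : ℝ) (hM : 4 ≤ M) (x y : P) (hxy : x ≠ y) :
    ((univ.filter fun q => E x q ∧ E y q ∧ ¬ ((X.filter fun w => E w q).card : ℝ) ≤ M).card : ℝ)
      * (M / 2) ≤ t * X.card := by
  set A := univ.filter fun q => E x q ∧ E y q ∧ ¬ ((X.filter fun w => E w q).card : ℝ) ≤ M with hA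
  set X' := X.filter fun w => w ≠ x ∧ w ≠ y with hX'
  have h1 : ∀ q ∈ A, M / 2 ≤ ((X'.filter fun w => E w q).card : ℝ) := by
    intro q hq
    simp only [hA, mem_filter, mem_univ, true_and] at hq
    have h2 : (X.filter fun w => E w q) ⊆ (X'.filter fun w => E w q) ∪ {x, y} := by
      intro w hw
      simp only [mem_filter] at hw
      simp only [hX', mem_union, mem_filter, mem_insert, mem_singleton]
      by_cases h3 : w = x
      · exact Or.inr (Or.inl h3)
      · by_cases h4 : w = y
        · exact Or.inr (Or.inr h4)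
        · exact Or.inl ⟨⟨hw.1, h3, h4⟩, hw.2⟩
    have h3 : (X.filter fun w => E w q).card ≤ (X'.filter fun w => E w q).card + 2 := by
      refine (card_le_card h2).trans ((card_union_le _ _).trans ?_)
      have := card_le_two (a := x) (b := y)
      omega
    have h4 : ((X.filter fun w => E w q).card : ℝ) ≤ (X'.filter fun w => E w q).card + 2 := by
      exact_mod_cast h3
    have h5 := hq.2.2
    push Not at h5
    linarith
  have h2 : (A.card : ℝ) * (M / 2) ≤ ∑ q ∈ A, ((X'.filter fun w => E w q).card : ℝ) := by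
    rw [← nsmul_eq_mul]
    exact card_nsmul_le_sum _ _ _ h1
  have h3 : ∑ q ∈ A, ((X'.filter fun w => E w q).card : ℝ) =
      ∑ w ∈ X', ((A.filter fun q => E w q).card : ℝ) := by
    have e1 : ∀ q ∈ A, ((X'.filter fun w => E w q).card : ℝ) =
        ∑ w ∈ X', if E w q then (1 : ℝ) else 0 := by
      intro q hq
      rw [card_filter]; push_cast; rfl
    have e2 : ∀ w ∈ X', ((A.filter fun q => E w q).card : ℝ) =
        ∑ q ∈ A, if E w q then (1 : ℝ) else 0 := by
      intro q hq
      rw [card_filter]; push_cast; rfl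
    rw [sum_congr rfl e1, sum_congr rfl e2, sum_comm]
  have h4 : ∑ w ∈ X', ((A.filter fun q => E w q).card : ℝ) ≤ X'.card • (t : ℝ) := by
    apply sum_le_card_nsmul
    intro w hw
    simp only [hX', mem_filter] at hw
    have : (A.filter fun q => E w q).card ≤ t := by
      refine le_trans (card_le_card ?_) (T3 x y w hxy hw.2.1.symm hw.2.2.symm).le
      intro q hq
      simp only [hA, mem_filter, mem_univ, true_and] at hq
      simp only [mem_filter, mem_univ, true_and]
      exact ⟨hq.1.1, hq.1.2.1, hq.2⟩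
    exact_mod_cast this
  have h5 : (X'.card : ℝ) ≤ X.card := by exact_mod_cast card_filter_le _ _
  rw [nsmul_eq_mul] at h4
  have h6 : (X'.card : ℝ) * t ≤ X.card * t := mul_le_mul_of_nonneg_right h5 (Nat.cast_nonneg _)
  linarith

variable [Fintype P]

open Classical in
/-- Choice of the block `q0`: it is large and a quarter of its pairs are rich. -/
lemma choose_block (E : P → Q → Prop) (n : ℕ) (d0 : ℝ)
    (hP : Fintype.card P ≤ n) (hQ : Fintype.card Q ≤ n) (hd0 : 4 / 3 ≤ d0) (hn : 0 < n)
    (he : 4 * n * d0 ≤ ∑ p : P, (dg E p : ℝ)) :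
    ∃ (q0 : Q) (X : Finset P), (∀ x ∈ X, E x q0) ∧ (∀ x ∈ X, d0 ≤ dg E x) ∧ d0 ≤ (X.card : ℝ) ∧
      (X.card : ℝ) ^ 2 / 4 ≤ (((X ×ˢ X).filter fun z => z.1 ≠ z.2 ∧
        (dg E z.1 : ℝ) * dg E z.2 / (4 * n) ≤ cd E z.1 z.2).card : ℝ) := by
  set P' : Finset P := univ.filter fun p => d0 ≤ (dg E p : ℝ) with hP'
  set e' : ℝ := ∑ p ∈ P', (dg E p : ℝ) with he'
  set w : ℝ := (Fintype.card Q : ℝ) with hw
  have hnR : (0 : ℝ) < n := by exact_mod_cast hn
  have hd0' : 0 < d0 := by linarith
  have hwn : w ≤ n := by rw [hw]; exact_mod_cast hQ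
  have hsplit : ∑ p : P, (dg E p : ℝ) = e' + ∑ p ∈ univ.filter (fun p => ¬ d0 ≤ (dg E p : ℝ)),
      (dg E p : ℝ) := by
    rw [he', hP']
    exact (sum_filter_add_sum_filter_not univ _ _).symm
  have hlow : ∑ p ∈ univ.filter (fun p => ¬ d0 ≤ (dg E p : ℝ)), (dg E p : ℝ) ≤ n * d0 := by
    have h1 : ∑ p ∈ univ.filter (fun p => ¬ d0 ≤ (dg E p : ℝ)), (dg E p : ℝ) ≤
        (univ.filter (fun p : P => ¬ d0 ≤ (dg E p : ℝ))).card • d0 := by
      apply sum_le_card_nsmul
      intro p hp
      simp only [mem_filter, mem_univ, true_and, not_le] at hp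
      exact hp.le
    rw [nsmul_eq_mul] at h1
    have h2 : ((univ.filter (fun p : P => ¬ d0 ≤ (dg E p : ℝ))).card : ℝ) ≤ n := by
      have : (univ.filter (fun p : P => ¬ d0 ≤ (dg E p : ℝ))).card ≤ n :=
        (card_filter_le _ _).trans (by rw [card_univ]; exact hP)
      exact_mod_cast this
    exact h1.trans (mul_le_mul_of_nonneg_right h2 hd0'.le)
  have he3 : 3 * n * d0 ≤ e' := by linarith
  have he'pos : 0 < e' := lt_of_lt_of_le (by positivity) he3
  -- block sizes
  set Dq : Q → ℝ := fun q => ((P'.filter fun p => E p q).card : ℝ) with hDq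
  have hDq0 : ∀ q, 0 ≤ Dq q := fun q => Nat.cast_nonneg _
  have hsumD : ∑ q : Q, Dq q = e' := by
    have e1 : ∀ q ∈ (univ : Finset Q), Dq q = ∑ p ∈ P', if E p q then (1 : ℝ) else 0 := by
      intro q hq
      simp only [hDq]
      rw [card_filter]; push_cast; rfl
    have e2 : ∀ p ∈ P', (dg E p : ℝ) = ∑ q : Q, if E p q then (1 : ℝ) else 0 := by
      intro p hp
      unfold dg
      rw [card_filter]; push_cast; rfl
    rw [sum_congr rfl e1, he', sum_congr rfl e2, sum_comm]
  have hwpos : 0 < w := by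
    rw [hw]
    by_contra hcon
    push Not at hcon
    have h0 : Fintype.card Q = 0 := by
      have : (Fintype.card Q : ℝ) = 0 := le_antisymm hcon (Nat.cast_nonneg _)
      exact_mod_cast this
    have hemp : IsEmpty Q := Fintype.card_eq_zero_iff.1 h0
    have : ∑ q : Q, Dq q = 0 := by
      rw [univ_eq_empty, sum_empty]
    linarith
  set SD : ℝ := ∑ q : Q, Dq q ^ 2 with hSD
  have hCS : e' ^ 2 ≤ w * SD := by
    have h := sq_sum_le_card_mul_sum_sq (s := (univ : Finset Q)) (f := Dq)
    rw [hsumD, card_univ] at h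
    exact h
  have hSDpos : 0 < SD := by
    by_contra hcon
    push Not at hcon
    have : w * SD ≤ 0 := mul_nonpos_of_nonneg_of_nonpos hwpos.le hcon
    have : 0 < e' ^ 2 := by positivity
    linarith
  have h4w : 4 * w ≤ e' := by
    have : 4 * (n : ℝ) ≤ 3 * n * d0 := by nlinarith
    linarith
  -- e' ≤ SD/4
  have heSD : e' ≤ SD / 4 := by
    have h1 : 4 * w * e' ≤ w * SD := by
      calc 4 * w * e' ≤ e' * e' := mul_le_mul_of_nonneg_right h4w he'pos.le
        _ = e' ^ 2 := by ring
        _ ≤ w * SD := hCS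
    have h2 : w * (4 * e') ≤ w * SD := by linarith
    have := le_of_mul_le_mul_left h2 hwpos
    linarith
  -- rich pairs
  set rich : P × P → Prop := fun z => z.1 ≠ z.2 ∧
        (dg E z.1 : ℝ) * dg E z.2 / (4 * w) ≤ cd E z.1 z.2 with hrich
  set Rr : Q → ℝ := fun q => ((((P'.filter fun p => E p q) ×ˢ (P'.filter fun p => E p q)).filter
    rich).card : ℝ) with hRr
  have hsq : ∑ z ∈ P' ×ˢ P', (cd E z.1 z.2 : ℝ) = SD := by
    have e1 : ∀ z ∈ P' ×ˢ P', (cd E z.1 z.2 : ℝ) =
        ∑ q : Q, (if E z.1 q then (1 : ℝ) else 0) * (if E z.2 q then (1 : ℝ) else 0) := by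
      intro z hz
      unfold cd
      rw [card_filter]
      push_cast
      apply sum_congr rfl
      intro q hq
      by_cases h1 : E z.1 q <;> by_cases h2 : E z.2 q <;> simp [h1, h2]
    rw [sum_congr rfl e1, sum_comm, hSD]
    apply sum_congr rfl
    intro q hq
    rw [sum_product, sq]
    have e3 : Dq q = ∑ p ∈ P', if E p q then (1 : ℝ) else 0 := by
      simp only [hDq]
      rw [card_filter]; push_cast; rfl
    rw [e3, sum_mul_sum]
  have hRsum : ∑ q : Q, Rr q = ∑ z ∈ (P' ×ˢ P').filter rich, (cd E z.1 z.2 : ℝ) := by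
    have e1 : ∀ z ∈ (P' ×ˢ P').filter rich, (cd E z.1 z.2 : ℝ) =
        ∑ q : Q, if (E z.1 q ∧ E z.2 q) then (1 : ℝ) else 0 := by
      intro z hz
      unfold cd
      rw [card_filter]
      push_cast
      rfl
    rw [sum_congr rfl e1, sum_comm]
    apply sum_congr rfl
    intro q hq
    simp only [hRr]
    rw [← sum_filter, sum_const, nsmul_eq_mul, mul_one]
    congr 2
    ext z
    simp only [mem_filter, mem_product]
    tauto
  have hbig : SD - e' - e' ^ 2 / (4 * w) ≤ ∑ q : Q, Rr q := by
    rw [hRsum, ← hsq]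
    have e1 : ∀ z ∈ P' ×ˢ P', (cd E z.1 z.2 : ℝ) ≤
        (if rich z then (cd E z.1 z.2 : ℝ) else 0) +
        (if z.1 = z.2 then (dg E z.1 : ℝ) else 0) +
        (dg E z.1 : ℝ) * dg E z.2 / (4 * w) := by
      intro z hz
      have hnn : (0 : ℝ) ≤ (dg E z.1 : ℝ) * dg E z.2 / (4 * w) := by positivity
      by_cases h1 : z.1 = z.2
      · have h2 : (cd E z.1 z.2 : ℝ) = dg E z.1 := by
          unfold cd dg
          rw [← h1]
          simp only [and_self]
        rw [if_pos h1]
        have h3 : (0 : ℝ) ≤ (if rich z then (cd E z.1 z.2 : ℝ) else 0) := by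
          by_cases hr : rich z
          · rw [if_pos hr]; positivity
          · rw [if_neg hr]
        linarith
      · rw [if_neg h1]
        by_cases h2 : (dg E z.1 : ℝ) * dg E z.2 / (4 * w) ≤ cd E z.1 z.2
        · rw [if_pos (show rich z from ⟨h1, h2⟩)]
          linarith
        · have h3 : ¬ rich z := fun h => h2 h.2
          rw [if_neg h3]
          push Not at h2
          linarith
    have h2 := sum_le_sum e1
    rw [sum_add_distrib, sum_add_distrib, ← sum_filter] at h2
    have h3 : ∑ z ∈ P' ×ˢ P', (if z.1 = z.2 then (dg E z.1 : ℝ) else 0) = e' := by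
      rw [sum_product, he']
      apply sum_congr rfl
      intro x hx
      simp only
      rw [sum_ite_eq, if_pos hx]
    have h4 : ∑ z ∈ P' ×ˢ P', (dg E z.1 : ℝ) * dg E z.2 / (4 * w) = e' ^ 2 / (4 * w) := by
      rw [← sum_div, sum_product, sq, he', sum_mul_sum]
    rw [h3, h4] at h2
    linarith
  have hbig2 : SD / 2 ≤ ∑ q : Q, Rr q := by
    have h1 : e' ^ 2 / (4 * w) ≤ SD / 4 := by
      rw [div_le_iff₀ (by positivity)]
      nlinarith
    linarith
  obtain ⟨q0, hq01, hq02⟩ : ∃ q0, e' / (3 * w) ≤ Dq q0 ∧ Dq q0 ^ 2 / 4 ≤ Rr q0 := by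
    by_contra hcon
    push Not at hcon
    have h1 : ∀ q ∈ (univ : Finset Q), Rr q ≤ (e' / (3 * w)) ^ 2 + Dq q ^ 2 / 4 := by
      intro q hq
      by_cases h2 : e' / (3 * w) ≤ Dq q
      · have := hcon q h2
        have h3 : 0 ≤ (e' / (3 * w)) ^ 2 := sq_nonneg _
        linarith
      · push Not at h2
        have h3 : Rr q ≤ Dq q ^ 2 := by
          simp only [hRr, hDq]
          have h4 : (((P'.filter fun p => E p q) ×ˢ (P'.filter fun p => E p q)).filter
            rich).card ≤ (P'.filter fun p => E p q).card ^ 2 := by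
            refine (card_filter_le _ _).trans ?_
            rw [card_product, sq]
          exact_mod_cast h4
        have h5 : Dq q ^ 2 ≤ (e' / (3 * w)) ^ 2 := by
          apply pow_le_pow_left₀ (hDq0 q) h2.le
        have h6 : 0 ≤ Dq q ^ 2 / 4 := by positivity
        linarith
    have h2 := sum_le_sum h1
    rw [sum_add_distrib, sum_const, card_univ, nsmul_eq_mul, ← sum_div] at h2
    have h3 : w * (e' / (3 * w)) ^ 2 ≤ SD / 9 := by
      have : w * (e' / (3 * w)) ^ 2 = e' ^ 2 / (9 * w) := by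
        field_simp
        ring
      rw [this, div_le_iff₀ (by positivity)]
      nlinarith
    have h4 : ∑ q : Q, Rr q ≤ SD / 9 + SD / 4 := by
      refine h2.trans ?_
      have : (Fintype.card Q : ℝ) * (e' / (3 * w)) ^ 2 = w * (e' / (3 * w)) ^ 2 := by rw [hw]
      rw [this]
      linarith
    linarith
  have hm : d0 ≤ Dq q0 := by
    refine le_trans ?_ hq01
    rw [le_div_iff₀ (by positivity)]
    nlinarith
  refine ⟨q0, P'.filter fun p => E p q0, ?_, ?_, hm, ?_⟩
  · intro x hx
    exact (mem_filter.1 hx).2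
  · intro x hx
    exact (mem_filter.1 (mem_filter.1 hx).1).2
  · refine hq02.trans ?_
    simp only [hRr]
    have : ((((P'.filter fun p => E p q0) ×ˢ (P'.filter fun p => E p q0)).filter rich)) ⊆
      (((P'.filter fun p => E p q0) ×ˢ (P'.filter fun p => E p q0)).filter fun z => z.1 ≠ z.2 ∧
        (dg E z.1 : ℝ) * dg E z.2 / (4 * n) ≤ cd E z.1 z.2) := by
      intro z hz
      rw [mem_filter] at hz ⊢
      refine ⟨hz.1, hz.2.1, le_trans ?_ hz.2.2⟩
      apply div_le_div_of_nonneg_left (by positivity) (by positivity)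
      linarith
    exact_mod_cast card_le_card this

end Helper900VC
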