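import Mathlib
import Pool.Agent.Helper900_VC.Core

/-!
The finite core: a dense `K_{3,t}`-free bipartite graph has a shattered four-set.
-/

open Finset

namespace Helper900VC

variable {P Q : Type*} [Fintype Q] [Fintype P]

open Classical in
theorem core (E : P → Q → Prop) (t n j : ℕ) (d0 e : ℝ) (ht : 1 ≤ t) (hn : 0 < n)
    (hP : Fintype.card P ≤ n) (hQ : Fintype.card Q ≤ n)
    (T3 : ∀ a b c : P, a ≠ b → a ≠ c → b ≠ c →
      (univ.filter fun q => E a q ∧ E b q ∧ E c q).card < t)
    (hns : ∀ S : Finset P, S.card = 4 → ¬ Shat E S)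
    (hd0 : 0 < d0) (he1 : e ≤ 1) (hee : e = d0 ^ 3 / (256 * t * (n : ℝ) ^ 2))
    (hj : 3 ≤ j * (2 * e))
    (hth : 2 * (j : ℝ) ^ 3 * (t : ℝ) ^ 2 <
      e ^ (j * j) * (1 / 8) ^ (j + 1) * (d0 ^ 2 / (8 * n)))
    (hedge : 4 * n * d0 ≤ ∑ p : P, (dg E p : ℝ)) : False := by
  have hnR : (0 : ℝ) < n := by exact_mod_cast hn
  have htR : (1 : ℝ) ≤ t := by exact_mod_cast ht
  have ht0 : (0 : ℝ) < t := by linarith
  have he0 : 0 < e := by rw [hee]; positivity
  have hj2R : (3 : ℝ) / 2 ≤ j := by nlinarith [(Nat.cast_nonneg j : (0 : ℝ) ≤ j)]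
  have hj2 : 2 ≤ j := by
    by_contra hcon
    push Not at hcon
    have : (j : ℝ) ≤ 1 := by exact_mod_cast Nat.lt_succ_iff.1 hcon
    linarith
  have hjR : (2 : ℝ) ≤ j := by exact_mod_cast hj2
  set κ : ℝ := d0 ^ 2 / (8 * n) with hκ
  have hκ0 : 0 < κ := by rw [hκ]; positivity
  set θ : ℝ := e ^ (j * j) * (1 / 8) ^ (j + 1) with hθ
  have hθ0 : 0 < θ := by rw [hθ]; positivity
  have hθ1 : θ ≤ 1 / 512 := by
    have h1 : e ^ (j * j) ≤ 1 := pow_le_one₀ he0.le he1
    have h2 : ((1 : ℝ) / 8) ^ (j + 1) ≤ (1 / 8) ^ 3 :=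
      pow_le_pow_of_le_one (by norm_num) (by norm_num) (by omega)
    calc θ ≤ 1 * (1 / 8) ^ 3 := by
          rw [hθ]
          exact mul_le_mul h1 h2 (by positivity) (by norm_num)
      _ = 1 / 512 := by norm_num
  have hj3 : (8 : ℝ) ≤ (j : ℝ) ^ 3 := by
    calc (8 : ℝ) = 2 ^ 3 := by norm_num
      _ ≤ (j : ℝ) ^ 3 := pow_le_pow_left₀ (by norm_num) hjR 3
  have ht2 : (t : ℝ) ≤ (t : ℝ) ^ 2 := by nlinarith
  have hθκ : 16 * (t : ℝ) < θ * κ := by
    have : 2 * 8 * (t : ℝ) ≤ 2 * (j : ℝ) ^ 3 * (t : ℝ) ^ 2 := by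
      apply mul_le_mul _ ht2 ht0.le (by positivity)
      linarith
    linarith
  have hκt : 8192 * (t : ℝ) < κ := by
    have h2 : θ * κ ≤ 1 / 512 * κ := mul_le_mul_of_nonneg_right hθ1 hκ0.le
    linarith
  -- d0 is at most n/4
  have hd0n : 4 * d0 ≤ n := by
    have h1 : ∑ p : P, (dg E p : ℝ) ≤ (n : ℝ) * n := by
      have h2 : ∑ p : P, (dg E p : ℝ) ≤ (univ : Finset P).card • (n : ℝ) := by
        apply sum_le_card_nsmul
        intro p _
        have : dg E p ≤ n := by
          unfold dg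
          exact (card_filter_le _ _).trans (by rw [card_univ]; exact hQ)
        exact_mod_cast this
      rw [nsmul_eq_mul, card_univ] at h2
      have h3 : (Fintype.card P : ℝ) * n ≤ n * n := by
        apply mul_le_mul_of_nonneg_right _ hnR.le
        exact_mod_cast hP
      linarith
    have h2 : (n : ℝ) * (4 * d0) ≤ n * n := by linarith
    exact le_of_mul_le_mul_left h2 hnR
  have hκd : 32 * κ ≤ d0 := by
    have : 32 * κ = d0 * (4 * d0) / n := by rw [hκ]; field_simp; ring
    rw [this, div_le_iff₀ hnR]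
    exact mul_le_mul_of_nonneg_left hd0n hd0.le
  have hd43 : 4 / 3 ≤ d0 := by linarith
  obtain ⟨q0, X, hXq, hXd, hXm, hXrich⟩ := choose_block E n d0 hP hQ hd43 hn hedge
  set m : ℝ := (X.card : ℝ) with hm
  have hm0 : 0 < m := lt_of_lt_of_le hd0 hXm
  set M : ℝ := 2 * t * m / κ with hM
  have hκm : 32 * κ ≤ m := hκd.trans hXm
  have hM4 : 64 * t ≤ M := by
    rw [hM, le_div_iff₀ hκ0]
    nlinarith
  have hM0 : 0 < M := by linarith
  have hMκ : M * κ = 2 * t * m := by rw [hM]; field_simp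
  set B : Finset Q := univ.filter fun q => ((X.filter fun w => E w q).card : ℝ) ≤ M with hB
  set R : P → P → Prop := fun x y => x ≠ y ∧ (dg E x : ℝ) * dg E y / (4 * n) ≤ cd E x y with hR
  have cdsymm : ∀ x y : P, cd E x y = cd E y x := by
    intro x y
    unfold cd
    congr 1
    ext q
    simp only [mem_filter, mem_univ, true_and]
    tauto
  have Rsymm : ∀ x y : P, R x y → R y x := by
    intro x y h
    refine ⟨h.1.symm, ?_⟩
    rw [← cdsymm x y, mul_comm]
    exact h.2
  -- codegree in small blocks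
  have hcB : ∀ x ∈ X, ∀ y ∈ X, R x y →
      (dg E x : ℝ) * dg E y / (8 * n) ≤ ((B.filter fun q => E x q ∧ E y q).card : ℝ) := by
    intro x hx y hy hxy
    have h1 := codeg_large E t T3 X M (by linarith) x y hxy.1
    have h2 : ((univ.filter fun q => E x q ∧ E y q ∧
        ¬ ((X.filter fun w => E w q).card : ℝ) ≤ M).card : ℝ) ≤ κ := by
      have h3 : ((univ.filter fun q => E x q ∧ E y q ∧
        ¬ ((X.filter fun w => E w q).card : ℝ) ≤ M).card : ℝ) * (M / 2) ≤ κ * (M / 2) := by
        refine h1.trans ?_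
        have : κ * (M / 2) = t * m := by linarith
        rw [this]
      exact le_of_mul_le_mul_right h3 (by positivity)
    have h3 : (cd E x y : ℝ) ≤ ((B.filter fun q => E x q ∧ E y q).card : ℝ) +
        ((univ.filter fun q => E x q ∧ E y q ∧
        ¬ ((X.filter fun w => E w q).card : ℝ) ≤ M).card : ℝ) := by
      have h4 : cd E x y ≤ (B.filter fun q => E x q ∧ E y q).card +
        (univ.filter fun q => E x q ∧ E y q ∧
          ¬ ((X.filter fun w => E w q).card : ℝ) ≤ M).card := by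
        unfold cd
        refine le_trans (card_le_card ?_) (card_union_le _ _)
        intro q hq
        simp only [mem_filter, mem_univ, true_and] at hq
        simp only [mem_union, mem_filter, mem_univ, true_and, hB]
        by_cases hc : ((X.filter fun w => E w q).card : ℝ) ≤ M
        · exact Or.inl ⟨hc, hq⟩
        · exact Or.inr ⟨hq.1, hq.2, hc⟩
      exact_mod_cast h4
    have h5 : κ ≤ (dg E x : ℝ) * dg E y / (8 * n) := by
      rw [hκ]
      apply div_le_div_of_nonneg_right _ (by positivity)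
      rw [sq]
      exact mul_le_mul (hXd x hx) (hXd y hy) hd0.le (Nat.cast_nonneg _)
    have h6 : (dg E x : ℝ) * dg E y / (4 * n) = 2 * ((dg E x : ℝ) * dg E y / (8 * n)) := by
      field_simp
      ring
    have h7 := hxy.2
    rw [h6] at h7
    linarith
  -- the key property of links
  set u0 : ℝ := 16 * n / d0 with hu0
  have hu0pos : 0 < u0 := by rw [hu0]; positivity
  have hpsd : ∀ x ∈ X, ∀ U ⊆ X, (∀ u ∈ U, R x u) → u0 ≤ (U.card : ℝ) →
      2 * e * (U.card : ℝ) ^ 2 ≤ ((Lk E B x U).card : ℝ) := by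
    intro x hx U hU hRU hUc
    have hdx : d0 ≤ (dg E x : ℝ) := hXd x hx
    have hdx0 : 0 < (dg E x : ℝ) := lt_of_lt_of_le hd0 hdx
    have hUd : 16 * n ≤ (U.card : ℝ) * d0 := by
      rw [hu0, div_le_iff₀ hd0] at hUc
      exact hUc
    have h1 := psd E t T3 B x U (fun u hu => (hRU u hu).1) (dg E x)
      ((U.card : ℝ) * ((dg E x : ℝ) * d0 / (8 * n))) hdx0 ?_ ?_ ?_
    · have h2 : ((U.card : ℝ) * ((dg E x : ℝ) * d0 / (8 * n))) ^ 2 / (2 * dg E x) =
        (dg E x : ℝ) * ((U.card : ℝ) ^ 2 * d0 ^ 2 / (128 * (n : ℝ) ^ 2)) := by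
        field_simp
        ring
      rw [h2] at h1
      have h3 : d0 * ((U.card : ℝ) ^ 2 * d0 ^ 2 / (128 * (n : ℝ) ^ 2)) ≤
          (dg E x : ℝ) * ((U.card : ℝ) ^ 2 * d0 ^ 2 / (128 * (n : ℝ) ^ 2)) :=
        mul_le_mul_of_nonneg_right hdx (by positivity)
      have h4 : d0 * ((U.card : ℝ) ^ 2 * d0 ^ 2 / (128 * (n : ℝ) ^ 2)) =
          t * (2 * e * (U.card : ℝ) ^ 2) := by
        rw [hee]
        field_simp
        ring
      rw [h4] at h3
      exact le_of_mul_le_mul_left (h3.trans h1) ht0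
    · have : (B.filter fun q => E x q).card ≤ dg E x := by
        unfold dg
        apply card_le_card
        intro q hq
        simp only [mem_filter] at hq
        simp only [mem_filter, mem_univ, true_and]
        exact hq.2
      exact_mod_cast this
    · rw [← nsmul_eq_mul]
      apply card_nsmul_le_sum
      intro u hu
      refine le_trans ?_ (hcB x hx u (hU hu) (hRU u hu))
      apply div_le_div_of_nonneg_right _ (by positivity)
      exact mul_le_mul_of_nonneg_left (hXd u (hU hu)) hdx0.le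
    · have h5 : (U.card : ℝ) * ((dg E x : ℝ) * d0 / (8 * n)) =
          ((U.card : ℝ) * d0) * ((dg E x : ℝ) / (8 * n)) := by ring
      rw [h5]
      have h6 : 16 * n * ((dg E x : ℝ) / (8 * n)) ≤
        ((U.card : ℝ) * d0) * ((dg E x : ℝ) / (8 * n)) :=
        mul_le_mul_of_nonneg_right hUd (by positivity)
      have h7 : 16 * n * ((dg E x : ℝ) / (8 * n)) = 2 * dg E x := by
        field_simp
        ring
      linarith
  -- initial sets
  set V : P → Finset P := fun x => X.filter (R x) with hV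
  have hVsum : m ^ 2 / 4 ≤ ∑ x ∈ X, ((V x).card : ℝ) := by
    refine hXrich.trans (le_of_eq ?_)
    have h1 : ((X ×ˢ X).filter fun z => z.1 ≠ z.2 ∧
        (dg E z.1 : ℝ) * dg E z.2 / (4 * n) ≤ cd E z.1 z.2).card = ∑ x ∈ X, (V x).card := by
      rw [card_filter, sum_product]
      apply sum_congr rfl
      intro x hx
      rw [hV]
      simp only
      rw [card_filter]
    rw [h1]
    push_cast
    rfl
  set D0 : Finset P := X.filter fun x => m / 8 ≤ ((V x).card : ℝ) with hD0
  have hD0card : m / 8 ≤ (D0.card : ℝ) := by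
    have h1 : ∑ x ∈ X, ((V x).card : ℝ) ≤
        ∑ x ∈ X, ((if m / 8 ≤ ((V x).card : ℝ) then m else 0) + m / 8) := by
      apply sum_le_sum
      intro x hx
      have h2 : ((V x).card : ℝ) ≤ m := by
        rw [hm]
        exact_mod_cast card_filter_le _ _
      split_ifs with hc
      · linarith
      · push Not at hc
        linarith
    rw [sum_add_distrib, ← sum_filter, sum_const, sum_const, nsmul_eq_mul, nsmul_eq_mul,
      ← hD0, ← hm] at h1
    have h3 : (m / 8) * m ≤ (D0.card : ℝ) * m := by nlinarith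
    exact le_of_mul_le_mul_right h3 hm0
  have hD0ne : D0.Nonempty := by
    rw [← card_pos]
    have : (0 : ℝ) < D0.card := by linarith
    exact_mod_cast this
  have hθm : u0 ≤ θ * m := by
    have h1 : u0 * κ ≤ θ * m * κ := by
      have h2 : u0 * κ = 2 * d0 := by
        rw [hu0, hκ]
        field_simp
        ring
      have h3 : (2 : ℝ) ≤ θ * κ := by linarith
      rw [h2]
      calc 2 * d0 ≤ (θ * κ) * m := mul_le_mul h3 hXm hd0.le (by positivity)
        _ = θ * m * κ := by ring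
    exact le_of_mul_le_mul_right h1 hκ0
  have hejr : u0 ≤ e ^ j * (m / 8) := by
    have h1 : θ ≤ e ^ j * (1 / 8) := by
      rw [hθ]
      apply mul_le_mul
      · exact pow_le_pow_of_le_one he0.le he1 (Nat.le_mul_self j)
      · calc ((1 : ℝ) / 8) ^ (j + 1) ≤ (1 / 8) ^ 1 :=
            pow_le_pow_of_le_one (by norm_num) (by norm_num) (by omega)
          _ = 1 / 8 := by norm_num
      · positivity
      · positivity
    have h2 : θ * m ≤ e ^ j * (1 / 8) * m := mul_le_mul_of_nonneg_right h1 hm0.le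
    linarith
  obtain ⟨Y, D, hDD, hDne, hYc, hYU, hcov, hDbig⟩ := greedy E B X R e u0 he0 he1 hu0pos
    (by rw [← hm]; exact hm0) hpsd j (m / 8) D0 V (by positivity) (filter_subset _ _)
    (fun x hx => ⟨filter_subset _ _, fun u hu => (mem_filter.1 hu).2, (mem_filter.1 hx).2⟩)
    hejr hD0ne
  have hDθ : θ * m ≤ (D.card : ℝ) := by
    refine le_trans ?_ hDbig
    have h1 : (m / 8 / (X.card : ℝ)) = 1 / 8 := by
      rw [← hm]
      field_simp
    rw [h1, hθ, pow_succ]
    have h2 : e ^ (j * j) * (1 / 8) ^ j * (m / 8) ≤ e ^ (j * j) * (1 / 8) ^ j * D0.card :=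
      mul_le_mul_of_nonneg_left hD0card (by positivity)
    calc e ^ (j * j) * ((1 / 8) ^ j * (1 / 8)) * m = e ^ (j * j) * (1 / 8) ^ j * (m / 8) := by ring
      _ ≤ _ := h2
  have hDM : (j : ℝ) ^ 3 * (t * M) < (D.card : ℝ) := by
    refine lt_of_lt_of_le ?_ hDθ
    have h1 : (j : ℝ) ^ 3 * (t * M) * κ < θ * m * κ := by
      have h2 : (j : ℝ) ^ 3 * (t * M) * κ = 2 * (j : ℝ) ^ 3 * (t : ℝ) ^ 2 * m := by
        calc (j : ℝ) ^ 3 * (t * M) * κ = (j : ℝ) ^ 3 * t * (M * κ) := by ring
          _ = (j : ℝ) ^ 3 * t * (2 * t * m) := by rw [hMκ]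
          _ = _ := by ring
      rw [h2]
      have h3 := mul_lt_mul_of_pos_right hth hm0
      linarith
    exact lt_of_mul_lt_mul_right h1 hκ0.le
  have hDX : D ⊆ X := hDD.trans (filter_subset _ _)
  have hYX : ∀ y ∈ Y, y ∈ X := by
    intro y hy
    obtain ⟨x, hx⟩ := hDne
    exact (mem_filter.1 (hYU x hx y hy)).1
  have hRxy : ∀ x ∈ D, ∀ y ∈ Y, R x y := by
    intro x hx y hy
    exact (mem_filter.1 (hYU x hx y hy)).2
  have htM : 0 < t * M := by positivity
  have hDM2 : 8 * (t * M) < (D.card : ℝ) := by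
    have : 8 * (t * M) ≤ (j : ℝ) ^ 3 * (t * M) := mul_le_mul_of_nonneg_right hj3 htM.le
    linarith
  have hDu : u0 ≤ (D.card : ℝ) := hθm.trans hDθ
  have hcount := count_le E t T3 hns B D Y q0 M hM0.le (fun x hx => hXq x (hDX hx))
    (fun y hy => hXq y (hYX y hy)) (fun x hx y hy => (hRxy x hx y hy).1) ?_ hcov ?_ ?_ ?_
  · have hlow : ∀ y ∈ Y, 2 * e * (D.card : ℝ) ^ 2 ≤ ((Lk E B y D).card : ℝ) := by
      intro y hy
      exact hpsd y (hYX y hy) D hDX (fun u hu => Rsymm _ _ (hRxy u hu y hy)) hDu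
    have h1 := card_nsmul_le_sum _ _ _ hlow
    rw [nsmul_eq_mul, hYc] at h1
    rw [hYc] at hcount
    have hDpos : 0 < (D.card : ℝ) := by linarith
    have h2 : 3 * (D.card : ℝ) ^ 2 ≤ j * (2 * e * (D.card : ℝ) ^ 2) := by
      have := mul_le_mul_of_nonneg_right hj (sq_nonneg (D.card : ℝ))
      linarith
    have h3 : (D.card : ℝ) * D.card ≤ (j : ℝ) ^ 3 * (t * M) * D.card := by
      have h4 : (j : ℝ) * ((D.card : ℝ) * ((j : ℝ) ^ 2 * (t * M))) =
        (j : ℝ) ^ 3 * (t * M) * D.card := by ring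
      rw [h4] at hcount
      nlinarith
    have h5 := le_of_mul_le_mul_right h3 hDpos
    linarith
  · intro x hx y hy
    have h1 := (hRxy x hx y hy).2
    have h2 : κ ≤ (dg E x : ℝ) * dg E y / (4 * n) := by
      have h3 : κ ≤ d0 ^ 2 / (4 * n) := by
        rw [hκ]
        apply div_le_div_of_nonneg_left (by positivity) (by positivity)
        linarith
      refine h3.trans ?_
      apply div_le_div_of_nonneg_right _ (by positivity)
      rw [sq]
      exact mul_le_mul (hXd x (hDX hx)) (hXd y (hYX y hy)) hd0.le (Nat.cast_nonneg _)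
    have h3 : (4 * t : ℝ) < (cd E x y : ℝ) := by linarith
    have h4 : 4 * t < cd E x y := by exact_mod_cast h3
    exact h4
  · intro q hq
    have h1 : ((X.filter fun w => E w q).card : ℝ) ≤ M := by
      have := (mem_filter.1 hq).2
      exact this
    refine le_trans ?_ h1
    exact_mod_cast card_le_card (filter_subset_filter _ hDX)
  · linarith
  · have : (3 : ℝ) ≤ (D.card : ℝ) := by nlinarith
    exact_mod_cast this

end Helper900VC
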