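import Mathlib

/-!
The numerical choice of parameters.
-/

open Real

namespace Helper900VC

/-- The choice of `j`, in logarithmic form. -/
lemma numeric (a L : ℝ) (ha : 13 ≤ a) (hL1 : 10 ^ 4 ≤ L) (hL2 : 64 * a ^ 4 ≤ L) :
    ∃ j : ℕ, 1 ≤ j ∧ a / √(L / log L) ≤ 1 ∧ 3 ≤ j * (2 * (a / √(L / log L))) ∧
      3 * log j + (j : ℝ) * j * log (√(L / log L) / a) + (j + 1) * log 8 +
        2 / 3 * log (√(L / log L)) < L / 3 := by
  set l : ℝ := log L with hl
  have hL0 : 0 < L := by linarith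
  have hs0 : 0 < √L := sqrt_pos.2 hL0
  have hss : √L * √L = L := mul_self_sqrt hL0.le
  have hs100 : 100 ≤ √L := by
    rw [show (100 : ℝ) = √(100 ^ 2) by rw [sqrt_sq (by norm_num)]]
    apply sqrt_le_sqrt
    norm_num
    linarith
  have hl1 : 1 ≤ l := by
    rw [hl, le_log_iff_exp_le hL0]
    have := exp_one_lt_d9
    linarith
  have hl0 : 0 < l := by linarith
  have hl2 : l ≤ 2 * √L := by
    have h1 : log L = 2 * log (√L) := by
      rw [log_sqrt hL0.le]; ring
    have h2 : log (√L) ≤ √L := (log_le_sub_one_of_pos hs0).trans (by linarith)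
    rw [hl, h1]
    linarith
  have ha2 : 8 * a ^ 2 ≤ √L := by
    apply le_sqrt_of_sq_le
    calc (8 * a ^ 2) ^ 2 = 64 * a ^ 4 := by ring
      _ ≤ L := hL2
  set x : ℝ := √(L / l) with hx
  have hLl0 : 0 < L / l := by positivity
  have hx0 : 0 < x := sqrt_pos.2 hLl0
  have hxx : x ^ 2 = L / l := sq_sqrt hLl0.le
  have hx2a : 2 * a ≤ x := by
    apply le_sqrt_of_sq_le
    rw [le_div_iff₀ hl0]
    calc (2 * a) ^ 2 * l ≤ (2 * a) ^ 2 * (2 * √L) := mul_le_mul_of_nonneg_left hl2 (sq_nonneg _)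
      _ = (8 * a ^ 2) * √L := by ring
      _ ≤ √L * √L := mul_le_mul_of_nonneg_right ha2 hs0.le
      _ = L := hss
  have hx26 : 26 ≤ x := by linarith
  have hxs : x ≤ √L := by
    apply sqrt_le_sqrt
    rw [div_le_iff₀ hl0]
    nlinarith
  have hx100 : x ≤ L / 100 := by
    have : √L ≤ L / 100 := by nlinarith
    linarith
  have hlogx : log x ≤ l / 2 := by
    have h1 : log x ≤ log (√L) := log_le_log hx0 hxs
    rw [log_sqrt hL0.le] at h1
    exact h1
  have ha0 : 0 < a := by linarith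
  refine ⟨⌈3 * x / (2 * a)⌉₊, ?_, ?_, ?_, ?_⟩
  · apply Nat.one_le_iff_ne_zero.2
    apply Nat.ne_of_gt
    exact Nat.ceil_pos.2 (by positivity)
  · rw [div_le_one hx0]
    linarith
  · have h1 : 3 * x / (2 * a) ≤ (⌈3 * x / (2 * a)⌉₊ : ℝ) := Nat.le_ceil _
    have h2 : 0 < 2 * (a / x) := by positivity
    calc (3 : ℝ) = 3 * x / (2 * a) * (2 * (a / x)) := by field_simp
      _ ≤ _ := mul_le_mul_of_nonneg_right h1 h2.le
  · set j : ℕ := ⌈3 * x / (2 * a)⌉₊ with hj
    have hj1 : 1 ≤ j := by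
      apply Nat.one_le_iff_ne_zero.2
      apply Nat.ne_of_gt
      exact Nat.ceil_pos.2 (by positivity)
    have hj1R : (1 : ℝ) ≤ j := by exact_mod_cast hj1
    have hj2 : (j : ℝ) ≤ 2 * x / a := by
      have h1 : (j : ℝ) < 3 * x / (2 * a) + 1 := Nat.ceil_lt_add_one (by positivity)
      have h2 : 1 ≤ x / (2 * a) := by
        rw [le_div_iff₀ (by positivity)]; linarith
      have h3 : 2 * x / a = 3 * x / (2 * a) + x / (2 * a) := by
        field_simp; ring
      rw [h3]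
      linarith
    have hj13 : (j : ℝ) ≤ 2 * x / 13 := by
      refine hj2.trans ?_
      exact div_le_div_of_nonneg_left (by positivity) (by norm_num) ha
    have hjx : (j : ℝ) ≤ x := by linarith
    have e1 : 3 * log j ≤ 3 * x := by
      have h1 : log (j : ℝ) ≤ log x := log_le_log (by linarith) hjx
      have h2 : log x ≤ x := (log_le_sub_one_of_pos hx0).trans (by linarith)
      linarith
    have e2 : (j : ℝ) * j * log (x / a) ≤ 2 / 169 * L := by
      have h1 : 0 ≤ log (x / a) := by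
        apply log_nonneg
        rw [le_div_iff₀ ha0]; linarith
      have h2 : log (x / a) ≤ l / 2 := by
        refine le_trans (log_le_log (by positivity) ?_) hlogx
        exact div_le_self hx0.le (by linarith)
      have h3 : (j : ℝ) * j ≤ (2 * x / 13) * (2 * x / 13) :=
        mul_le_mul hj13 hj13 (by positivity) (by positivity)
      calc (j : ℝ) * j * log (x / a) ≤ (2 * x / 13) * (2 * x / 13) * (l / 2) :=
            mul_le_mul h3 h2 h1 (by positivity)
        _ = 2 / 169 * (x ^ 2 * l) := by ring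
        _ = 2 / 169 * L := by rw [hxx, div_mul_cancel₀ _ hl0.ne']
    have e3 : ((j : ℝ) + 1) * log 8 ≤ 3 * x := by
      have h1 : log (8 : ℝ) ≤ 3 := by
        have : log (8 : ℝ) = 3 * log 2 := by
          rw [show (8 : ℝ) = 2 ^ 3 by norm_num, log_pow]; norm_num
        rw [this]
        have := log_two_lt_d9
        linarith
      have h0 : 0 ≤ log (8 : ℝ) := log_nonneg (by norm_num)
      have h2 : (j : ℝ) + 1 ≤ x := by linarith
      calc ((j : ℝ) + 1) * log 8 ≤ x * 3 := mul_le_mul h2 h1 h0 hx0.le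
        _ = 3 * x := by ring
    have e4 : 2 / 3 * log x ≤ x := by
      have h2 : log x ≤ x := (log_le_sub_one_of_pos hx0).trans (by linarith)
      have h3 : 0 ≤ log x := log_nonneg (by linarith)
      linarith
    linarith

/-- The choice of `j`, in multiplicative form. -/
lemma numeric' (t : ℕ) (ht : 1 ≤ t) : ∃ N : ℕ, 16 ≤ N ∧ ∀ n : ℕ, N ≤ n → ∀ y u d0 e : ℝ,
    y = (log (log n) / log n) ^ ((1 : ℝ) / 6) → u = (n : ℝ) ^ ((1 : ℝ) / 3) →
    d0 = 15 * t * y * u ^ 2 → e = d0 ^ 3 / (256 * t * (n : ℝ) ^ 2) →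
    ∃ j : ℕ, 0 < d0 ∧ e ≤ 1 ∧ 3 ≤ j * (2 * e) ∧
      2 * (j : ℝ) ^ 3 * (t : ℝ) ^ 2 <
      e ^ (j * j) * (1 / 8) ^ (j + 1) * (d0 ^ 2 / (8 * n)) := by
  have htR : (1 : ℝ) ≤ t := by exact_mod_cast ht
  set a : ℝ := 3375 / 256 * (t : ℝ) ^ 2 with ha
  have ha13 : 13 ≤ a := by
    have : (1 : ℝ) ≤ (t : ℝ) ^ 2 := one_le_pow₀ htR
    rw [ha]; linarith
  have hev : ∀ᶠ n : ℕ in Filter.atTop, 16 ≤ n ∧ 10 ^ 4 ≤ log (n : ℝ) ∧
      64 * a ^ 4 ≤ log (n : ℝ) := by
    have h1 : Filter.Tendsto (fun n : ℕ => log (n : ℝ)) Filter.atTop Filter.atTop :=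
      tendsto_log_atTop.comp tendsto_natCast_atTop_atTop
    exact (Filter.eventually_ge_atTop 16).and ((h1.eventually_ge_atTop _).and
      (h1.eventually_ge_atTop _))
  obtain ⟨N, hN⟩ := Filter.eventually_atTop.1 hev
  refine ⟨N, (hN N le_rfl).1, ?_⟩
  intro n hn y u d0 e hy hu hd0 he
  obtain ⟨hn16, hL1, hL2⟩ := hN n hn
  set L : ℝ := log (n : ℝ) with hL
  obtain ⟨j, hj1, hj2, hj3, hj4⟩ := numeric a L ha13 hL1 hL2
  have hnR : (0 : ℝ) < n := by
    have : 0 < n := by omega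
    exact_mod_cast this
  have hL0 : 0 < L := by linarith
  have hl1 : 1 ≤ log L := by
    rw [le_log_iff_exp_le hL0]
    have := exp_one_lt_d9
    linarith
  have hl0 : 0 < log L := by linarith
  set x : ℝ := √(L / log L) with hx
  have hLl0 : 0 < L / log L := by positivity
  have hx0 : 0 < x := sqrt_pos.2 hLl0
  have hlL0 : 0 < log L / L := by positivity
  have hy0 : 0 < y := by rw [hy]; exact rpow_pos_of_pos hlL0 _
  have hu0 : 0 < u := by rw [hu]; exact rpow_pos_of_pos hnR _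
  have hlogy : log y = - (1 / 3 * log x) := by
    rw [hy, log_rpow hlL0, hx, log_sqrt hLl0.le, log_div hl0.ne' hL0.ne',
      log_div hL0.ne' hl0.ne']
    ring
  have hlogu : log u = L / 3 := by
    rw [hu, log_rpow hnR]
    ring
  have hy3 : y ^ 3 = 1 / x := by
    have h1 : 0 < y ^ 3 := by positivity
    have h2 : 0 < 1 / x := by positivity
    apply log_injOn_pos (Set.mem_Ioi.2 h1) (Set.mem_Ioi.2 h2)
    have h3 : log (1 / x) = - log x := by rw [one_div, log_inv]
    rw [log_pow, hlogy, h3]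
    push_cast
    ring
  have hu3 : u ^ 3 = n := by
    have h1 : 0 < u ^ 3 := by positivity
    apply log_injOn_pos (Set.mem_Ioi.2 h1) (Set.mem_Ioi.2 hnR)
    rw [log_pow, hlogu]
    push_cast
    ring
  have ht0 : (0 : ℝ) < t := by linarith
  have hd0pos : 0 < d0 := by rw [hd0]; positivity
  have hea : e = a / x := by
    have h1 : d0 ^ 3 = 3375 * (t : ℝ) ^ 3 * y ^ 3 * (u ^ 3) ^ 2 := by rw [hd0]; ring
    rw [he, h1, hy3, hu3, ha]
    field_simp
  have he0 : 0 < e := by rw [hea]; positivity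
  refine ⟨j, hd0pos, ?_, ?_, ?_⟩
  · rw [hea]; exact hj2
  · rw [hea]; exact hj3
  · have hj0 : (0 : ℝ) < j := by
      have : 0 < j := hj1
      exact_mod_cast this
    have hκ : d0 ^ 2 / (8 * n) = 225 / 8 * (t : ℝ) ^ 2 * (y ^ 2 * u) := by
      rw [hd0, ← hu3]
      field_simp
      ring
    rw [hκ]
    have hmain : (j : ℝ) ^ 3 < e ^ (j * j) * (1 / 8) ^ (j + 1) * (y ^ 2 * u) := by
      have h1 : 0 < (j : ℝ) ^ 3 := by positivity
      have h2 : 0 < e ^ (j * j) * (1 / 8) ^ (j + 1) * (y ^ 2 * u) := by positivity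
      rw [← log_lt_log_iff h1 h2]
      rw [log_mul (by positivity) (by positivity), log_mul (by positivity) (by positivity),
        log_mul (by positivity) (by positivity), log_pow, log_pow, log_pow, log_pow, hlogy, hlogu]
      have h3 : log e = - log (x / a) := by
        rw [hea, ← log_inv, inv_div]
      have h5 : log ((1 : ℝ) / 8) = - log 8 := by rw [one_div, log_inv]
      rw [h3, h5]
      push_cast
      linarith
    have h1 : 2 * (j : ℝ) ^ 3 * (t : ℝ) ^ 2 ≤ 225 / 8 * (t : ℝ) ^ 2 * (j : ℝ) ^ 3 := by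
      have : 0 ≤ (j : ℝ) ^ 3 * (t : ℝ) ^ 2 := by positivity
      linarith
    have h2 : 225 / 8 * (t : ℝ) ^ 2 * (j : ℝ) ^ 3 <
        225 / 8 * (t : ℝ) ^ 2 * (e ^ (j * j) * (1 / 8) ^ (j + 1) * (y ^ 2 * u)) :=
      mul_lt_mul_of_pos_left hmain (by positivity)
    calc 2 * (j : ℝ) ^ 3 * (t : ℝ) ^ 2 ≤ _ := h1
      _ < _ := h2
      _ = _ := by ring

end Helper900VC
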